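import Pool.Agent.Y178.AV.Fin

/-!
# MP_c52a38_ag, Q1: the statement fails in every dimension and for every value of `(B^g)`

(A) Let `X = ℂ^g / Λ` be a complex torus containing the elliptic curve `C = ℂ / (ℤ + ℤ i)` (the
image of the first coordinate line) and let `D` be an effective `ℚ`-divisor on `X` of degree
`D · C < 1`.  Then the cosupport `Z(D)` of the multiplier ideal is invariant under all translations
by `C`.

(B) For every `g ≥ 2` and every transcendental real number `α > 0` let `X_α = ℂ^g / Λ` be the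
quotient of the product of the elliptic curves `ℂ / (ℤ + ℤ α^j i)`, `0 ≤ j < g`, by the point of
order two `(1/2, ..., 1/2)`.  For every rational number `r > 0` (in particular `r > g^g`) there is an
ample (even effective) `ℚ`-divisor `B` on `X_α` with `(B^g) = r` such that for every effective
`ℚ`-divisor `D ≡ B` whose `Z(D)` is an abelian subvariety, this abelian subvariety contains the
elliptic curve `C`, so it is positive dimensional, while `(X_α, B)` does not split.
-/

open Pool.Agent.H619R3.AV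

namespace Pool.Agent.Results.MP_c52a38_ag.EveryDimension

theorem result :
    (∀ (k : ℕ) (b : Module.Basis (Fin (2 * (k + 1))) ℝ (Fin (k + 1) → ℂ))
      (E : (Fin (k + 1) → ℂ) →ₗ[ℝ] (Fin (k + 1) → ℂ) →ₗ[ℝ] ℝ),
      (Pi.single 0 1 : Fin (k + 1) → ℂ) ∈ lattice b →
      (Pi.single 0 Complex.I : Fin (k + 1) → ℂ) ∈ lattice b →
      E (Pi.single 0 Complex.I) (Pi.single 0 1) < 1 →
      ∀ D : EffQDiv (lattice b), NumEquiv D E →
        ∀ x ∈ cosupport D, ∀ s : ℂ, x + Pi.single 0 s ∈ cosupport D) ∧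
    (∀ (k : ℕ) (α : ℝ), 0 < α → Transcendental ℚ α →
      ∃ b : Module.Basis (Fin (2 * (k + 2))) ℝ (Fin (k + 2) → ℂ),
        (∀ x, x ∈ lattice b ↔ ∃ (n : ℤ) (p q : Fin (k + 2) → ℤ), ∀ j,
          x j = n / 2 + p j + q j * (α : ℂ) ^ (j : ℕ) * Complex.I) ∧
        ∀ r : ℚ, 0 < r → ∃ E : (Fin (k + 2) → ℂ) →ₗ[ℝ] (Fin (k + 2) → ℂ) →ₗ[ℝ] ℝ,
          IsAmpleClass (lattice b) E ∧ selfInt b E = r ∧
          (∃ B : EffQDiv (lattice b), NumEquiv B E) ∧
          ∀ D : EffQDiv (lattice b), NumEquiv D E → ∀ W, CosupportIs D W →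
            (Pi.single 0 1 : Fin (k + 2) → ℂ) ∈ W ∧ 0 < Module.finrank ℂ W ∧
              ¬ Splits (lattice b) E) := by
  constructor
  · intro k b E h1 hI hE D hD x hx s
    rw [← Pool.Agent.Y178.AV.e0_s]
    rw [← Pool.Agent.Y178.AV.e0_I] at hI hE
    exact Pool.Agent.Y178.AV.cosupport_invariant D h1 hI hD hE x hx s
  · intro k α h0 hα
    have ht : ∀ j : Fin (k + 2), 0 < α ^ (j : ℕ) := fun j => pow_pos h0 _
    refine ⟨Pool.Agent.Y178.AV.pb (k := k + 1) (fun j => α ^ (j : ℕ)) ht, ?_, ?_⟩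
    · intro x
      rw [Pool.Agent.Y178.AV.mem_pb]
      refine exists_congr fun n => exists_congr fun p => exists_congr fun q =>
        forall_congr' fun j => ?_
      have e : (n / 2 + p j + q j * (α : ℂ) ^ (j : ℕ) * Complex.I : ℂ) =
          ⟨n / 2 + p j, q j * α ^ (j : ℕ)⟩ := by
        have h1 : ((α : ℂ) ^ (j : ℕ)) = ((α ^ (j : ℕ) : ℝ) : ℂ) := by push_cast; rfl
        have h2 : ((α : ℂ) ^ (j : ℕ)).im = 0 := by rw [h1]; exact Complex.ofReal_im _
        have h3 : ((α : ℂ) ^ (j : ℕ)).re = α ^ (j : ℕ) := by rw [h1]; exact Complex.ofReal_re _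
        apply Complex.ext
        · simp [h2]
        · simp [h3]
      rw [e]
      constructor
      · rintro ⟨h1, h2⟩
        exact Complex.ext h1 h2
      · intro h
        rw [h]
        exact ⟨rfl, rfl⟩
    · intro r hr
      exact Pool.Agent.Y178.AV.main k _ ht (by simp)
        (Pool.Agent.Y178.AV.irr_powers h0 hα (k + 1)) r hr

end Pool.Agent.Results.MP_c52a38_ag.EveryDimension
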